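import Pool.Agent.N236.UR.Stm

/-!
# Project UR (helper236), part KAP (helper622)
Displacement ratios are constant modulo the maximal ideal in a window without exceptional depth.
-/

set_option autoImplicit false

namespace Pool.Agent.N622.UR

open Pool.Agent.N236.UR Pool.Agent.N236.UB

variable {L : Type} [Field L] {v : AbsoluteValue L ℝ}

lemma wd_anti (x y : L × L) : wd x y = -wd y x := by
  unfold wd
  ring

lemma pluecker (a b c d : L × L) :
    wd a b * wd c d - wd a c * wd b d = -(wd a d * wd b c) := by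
  unfold wd
  ring

lemma le_one_of (hv : ∀ x y : L, v (x + y) ≤ max (v x) (v y)) {b : L} (h : v (b - 1) < 1) :
    v b ≤ 1 := by
  have h1 := hv (b - 1) 1
  rw [sub_add_cancel, map_one] at h1
  exact h1.trans (max_le h.le le_rfl)

lemma mul_near (hv : ∀ x y : L, v (x + y) ≤ max (v x) (v y)) {a b : L} (ha : v (a - 1) < 1)
    (hb : v (b - 1) < 1) : v (a * b - 1) < 1 := by
  have e : a * b - 1 = (a - 1) * b + (b - 1) := by ring
  rw [e]
  refine (hv _ _).trans_lt (max_lt ?_ hb)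
  rw [map_mul]
  have h1 := le_one_of hv hb
  have h2 := v.nonneg (a - 1)
  nlinarith

lemma div_near {a b : L} (h : v (a - b) < v b) : v (a / b - 1) < 1 := by
  have hb : b ≠ 0 := by
    rintro rfl
    rw [map_zero] at h
    exact absurd h (not_lt.2 (v.nonneg _))
  have hvb : 0 < v b := v.pos hb
  rw [div_sub_one hb, map_div₀, div_lt_one hvb]
  exact h

/-- telescoping product of quotients close to one -/
lemma tele (hv : ∀ x y : L, v (x + y) ≤ max (v x) (v y)) {a b e f : ℕ → L} (ha : ∀ t, a t ≠ 0)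
    (hb : ∀ t, b t ≠ 0) (he : ∀ t, e t ≠ 0) (hf : ∀ t, f t ≠ 0)
    (h : ∀ t, v (a (t + 1) * b (t + 1) * (e t * f t) - e (t + 1) * f (t + 1) * (a t * b t)) <
      v (e (t + 1) * f (t + 1) * (a t * b t))) (M : ℕ) :
    v (a M * b M * (e 0 * f 0) / (e M * f M * (a 0 * b 0)) - 1) < 1 := by
  induction M with
  | zero =>
    have h0 : a 0 * b 0 * (e 0 * f 0) / (e 0 * f 0 * (a 0 * b 0)) - 1 = 0 := by
      have := ha 0
      have := hb 0
      have := he 0
      have := hf 0
      field_simp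
      ring
    rw [h0, map_zero]
    exact one_pos
  | succ M ih =>
    have h1 : a (M + 1) * b (M + 1) * (e 0 * f 0) / (e (M + 1) * f (M + 1) * (a 0 * b 0)) =
        (a (M + 1) * b (M + 1) * (e M * f M)) / (e (M + 1) * f (M + 1) * (a M * b M)) *
        (a M * b M * (e 0 * f 0) / (e M * f M * (a 0 * b 0))) := by
      have := ha 0
      have := hb 0
      have := he 0
      have := hf 0
      have := ha M
      have := hb M
      have := he M
      have := hf M
      have := he (M + 1)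
      have := hf (M + 1)
      field_simp
    rw [h1]
    exact mul_near hv (div_near (h M)) ih

lemma kap_symm (V : ℤ → L × L) (u M x y : ℤ) : kap V u M x y = kap V u M y x := by
  unfold kap
  rw [wd_anti (V (x + M)) (V (y + M)), wd_anti (V x) (V y), neg_mul, neg_mul, neg_div_neg_eq,
    mul_comm (wd (V x) (V u)), mul_comm (wd (V (x + M)) (V u))]

section

variable {n : ℕ} {V : ℤ → L × L} {c : ℤ → ℝ}

lemma per {n : ℕ} {α : Type} {f : ℤ → α} (h : ∀ i : ℤ, f (i + n) = f i) {i j : ℤ}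
    (hij : (n : ℤ) ∣ i - j) : f i = f j := by
  obtain ⟨m, hm⟩ := hij
  have hp : Function.Periodic f (n : ℤ) := h
  have h1 := hp.int_mul m j
  rw [← h1]
  congr 1
  simp only [Int.cast_id]
  linarith

/-- the properties of the metric -/
structure Um (v : AbsoluteValue L ℝ) (n : ℕ) (V : ℤ → L × L) (c : ℤ → ℝ) : Prop where
  ult : ∀ x y z : ℤ, dl v V c x y ≤ max (dl v V c x z) (dl v V c z y)
  sh : ∀ x y t : ℤ, dl v V c (x + t) (y + t) = dl v V c x y
  sy : ∀ x y : ℤ, dl v V c x y = dl v V c y x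
  ze : ∀ x y : ℤ, dl v V c x y = 0 ↔ (n : ℤ) ∣ x - y
  nn : ∀ x y : ℤ, 0 ≤ dl v V c x y
  cp : ∀ i, 0 < c i

lemma Um.wne (_hU : Um v n V c) {a b : ℤ} (h : 0 < dl v V c a b) : wd (V a) (V b) ≠ 0 := by
  intro h0
  unfold dl at h
  rw [h0, map_zero, mul_zero] at h
  exact lt_irrefl _ h

lemma Um.val (hU : Um v n V c) (a b : ℤ) : v (wd (V a) (V b)) = dl v V c a b / (c a * c b) := by
  unfold dl
  have h1 := (hU.cp a).ne'
  have h2 := (hU.cp b).ne'
  field_simp

lemma Um.iso (hU : Um v n V c) {a b w : ℤ} (h : dl v V c a b < dl v V c a w) :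
    dl v V c b w = dl v V c a w := by
  apply le_antisymm
  · have h1 := hU.ult b w a
    rw [hU.sy b a] at h1
    exact h1.trans (max_le h.le le_rfl)
  · have h1 := hU.ult a w b
    rcases le_max_iff.1 h1 with h2 | h2
    · exact absurd h (not_lt.2 h2)
    · exact h2

/-- the value of a displacement ratio -/
lemma kap_val (hU : Um v n V c) {s' : ℝ} {u M x y : ℤ} (hs : s' < dl v V c 0 u) (h0 : 0 ≤ s')
    (hM : dl v V c 0 M ≤ s') (hx : dl v V c 0 x ≤ s') (hy : dl v V c 0 y ≤ s')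
    (hxy : 0 < dl v V c x y) : v (kap V u M x y) = 1 := by
  have hb : ∀ z, dl v V c 0 z ≤ s' → dl v V c z u = dl v V c 0 u := fun z hz =>
    hU.iso (hz.trans_lt hs)
  have hbM : ∀ z, dl v V c 0 z ≤ s' → dl v V c 0 (z + M) ≤ s' := by
    intro z hz
    refine (hU.ult 0 (z + M) M).trans (max_le hM ?_)
    have h1 := hU.sh 0 z M
    rw [zero_add] at h1
    rw [h1]
    exact hz
  have hD : 0 < dl v V c 0 u := h0.trans_lt hs
  unfold kap
  rw [map_div₀, map_mul, map_mul, map_mul, map_mul, hU.val, hU.val, hU.val, hU.val, hU.val, hU.val,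
    hb x hx, hb y hy, hb _ (hbM x hx), hb _ (hbM y hy), hU.sh]
  have h1 := (hU.cp x).ne'
  have h2 := (hU.cp y).ne'
  have h3 := (hU.cp u).ne'
  have h4 := (hU.cp (x + M)).ne'
  have h5 := (hU.cp (y + M)).ne'
  have h6 := hD.ne'
  have h7 := hxy.ne'
  field_simp

/-- the main step -/
lemma main_step (hv : ∀ x y : L, v (x + y) ≤ max (v x) (v y)) (hU : Um v n V c)
    (hV : ∀ i : ℤ, V (i + n) = V i) {s s' : ℝ} {u x y y' : ℤ} (M : ℕ) (hs0 : 0 < s) (hss : s ≤ s')
    (hs : s' < dl v V c 0 u)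
    (hq : ∀ t : ℕ, ¬ (n : ℤ) ∣ y - y' → v (qnum V (x + t) (u + t) (y + t) (y' + t) -
      qden V (x + t) (u + t) (y + t) (y' + t)) < v (qden V (x + t) (u + t) (y + t) (y' + t)))
    (hM : dl v V c 0 M ≤ s') (hx : dl v V c 0 x ≤ s') (hy : dl v V c 0 y ≤ s')
    (hy' : dl v V c 0 y' ≤ s') (hxy : s ≤ dl v V c x y) (hxy' : s ≤ dl v V c x y') :
    v (kap V u M x y - kap V u M x y') < 1 := by
  have h0 : 0 ≤ s' := hs0.le.trans hss
  by_cases hc : (n : ℤ) ∣ y - y'
  · have e1 : V y = V y' := per hV hc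
    have e2 : V (y + M) = V (y' + M) := per hV (by simpa using hc)
    unfold kap
    rw [e1, e2, sub_self, map_zero]
    exact one_pos
  have hb : ∀ z, dl v V c 0 z ≤ s' → dl v V c z u = dl v V c 0 u := fun z hz =>
    hU.iso (hz.trans_lt hs)
  have hbM : ∀ z, dl v V c 0 z ≤ s' → dl v V c 0 (z + M) ≤ s' := by
    intro z hz
    refine (hU.ult 0 (z + M) M).trans (max_le hM ?_)
    have h1 := hU.sh 0 z M
    rw [zero_add] at h1
    rw [h1]
    exact hz
  have hD : 0 < dl v V c 0 u := h0.trans_lt hs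
  have hub : ∀ z, dl v V c 0 z ≤ s' → dl v V c u z = dl v V c 0 u := fun z hz => by
    rw [hU.sy, hb z hz]
  have ht := tele (v := v) hv (a := fun t : ℕ => wd (V (x + t)) (V (y + t)))
    (b := fun t : ℕ => wd (V (u + t)) (V (y' + t))) (e := fun t : ℕ => wd (V (x + t)) (V (y' + t)))
    (f := fun t : ℕ => wd (V (u + t)) (V (y + t)))
    (fun t => hU.wne (by rw [hU.sh]; exact hs0.trans_le hxy))
    (fun t => hU.wne (by rw [hU.sh, hub y' hy']; exact hD))
    (fun t => hU.wne (by rw [hU.sh]; exact hs0.trans_le hxy'))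
    (fun t => hU.wne (by rw [hU.sh, hub y hy]; exact hD))
    (fun t => by
      have h1 := hq t hc
      unfold qnum qden at h1
      push_cast
      simp only [← add_assoc]
      exact h1) M
  simp only [Nat.cast_zero, add_zero] at ht
  -- the second factor
  have hE : v (wd (V (u + M)) (V (y + M)) * wd (V (y' + M)) (V u) /
      (wd (V (u + M)) (V (y' + M)) * wd (V (y + M)) (V u)) - 1) < 1 := by
    apply div_near
    rw [pluecker, map_neg_eq_map, map_mul, map_mul, hU.val, hU.val, hU.val, hU.val, hU.sh, hU.sh,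
      hb _ (hbM y hy), hub y' hy']
    have k1 : dl v V c (u + M) u ≤ s' := by
      have h1 := hU.sh 0 (M : ℤ) u
      rw [zero_add, add_comm] at h1
      rw [hU.sy, h1]
      exact hM
    have k2 : dl v V c y y' ≤ s' := (hU.ult y y' 0).trans (max_le (by rw [hU.sy]; exact hy) hy')
    have k3 := hU.nn (u + M) u
    have k4 := hU.nn y y'
    have p1 := hU.cp u
    have p2 := hU.cp (u + M)
    have p3 := hU.cp (y + M)
    have p4 := hU.cp (y' + M)
    rw [div_mul_div_comm, div_mul_div_comm]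
    have e1 : c (u + M) * c (y' + M) * (c (y + M) * c u) = c (u + M) * c u * (c (y + M) * c (y' + M)) := by
      ring
    rw [e1]
    apply div_lt_div_of_pos_right _ (by positivity)
    calc dl v V c (u + M) u * dl v V c y y' ≤ s' * s' := mul_le_mul k1 k2 k4 h0
      _ < dl v V c 0 u * dl v V c 0 u := by nlinarith
  have hA : kap V u M x y = kap V u M x y' *
      ((wd (V (x + M)) (V (y + M)) * wd (V (u + M)) (V (y' + M)) *
        (wd (V x) (V y') * wd (V u) (V y)) / (wd (V (x + M)) (V (y' + M)) *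
        wd (V (u + M)) (V (y + M)) * (wd (V x) (V y) * wd (V u) (V y')))) *
      (wd (V (u + M)) (V (y + M)) * wd (V (y' + M)) (V u) /
        (wd (V (u + M)) (V (y' + M)) * wd (V (y + M)) (V u)))) := by
    rw [wd_anti (V u) (V y), wd_anti (V u) (V y')]
    unfold kap
    have n1 : wd (V (x + M)) (V (y' + M)) ≠ 0 := hU.wne (by rw [hU.sh]; exact hs0.trans_le hxy')
    have n2 : wd (V x) (V y') ≠ 0 := hU.wne (hs0.trans_le hxy')
    have n3 : wd (V (x + M)) (V u) ≠ 0 := hU.wne (by rw [hb _ (hbM x hx)]; exact hD)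
    have n4 : wd (V (y' + M)) (V u) ≠ 0 := hU.wne (by rw [hb _ (hbM y' hy')]; exact hD)
    have n5 : wd (V (y + M)) (V u) ≠ 0 := hU.wne (by rw [hb _ (hbM y hy)]; exact hD)
    have n6 : wd (V (u + M)) (V (y' + M)) ≠ 0 := hU.wne (by rw [hU.sh, hub y' hy']; exact hD)
    have n7 : wd (V (u + M)) (V (y + M)) ≠ 0 := hU.wne (by rw [hU.sh, hub y hy]; exact hD)
    have n8 : wd (V x) (V y) ≠ 0 := hU.wne (hs0.trans_le hxy)
    have n9 : wd (V y') (V u) ≠ 0 := hU.wne (by rw [hb y' hy']; exact hD)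
    have n10 : wd (V x) (V u) ≠ 0 := hU.wne (by rw [hb x hx]; exact hD)
    field_simp
  have hB : v (kap V u M x y') = 1 :=
    kap_val hU hs h0 hM hx hy' (hs0.trans_le hxy')
  rw [hA]
  set B := kap V u M x y' with hBdef
  rw [← mul_sub_one, map_mul, hB, one_mul]
  exact mul_near hv ht hE

end

theorem t_kap : S_ULT → S_KAP := by
  intro hULT L _ v p q e n k V c rel d hL hn hF s s' u hs0 hss hs hW M hM x y x' y' hx hy hx' hy'
    hxy hxy'
  obtain ⟨hC, hStg, hFull⟩ := hF
  have hv := hL.1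
  obtain ⟨u1, u2, u3, u4, u5⟩ := hULT L v p q e n V c hL hn hC
  obtain ⟨⟨hV, hwd⟩, hcp, hcper, -⟩ := hC
  have hU : Um v n V c := ⟨u1, u2, u3, u4, u5, hcp⟩
  have h0 : 0 ≤ s' := hs0.le.trans hss
  -- a nonnegative displacement
  obtain ⟨M', hM'⟩ : ∃ M' : ℕ, (n : ℤ) ∣ M - M' := by
    refine ⟨(M % n).toNat, ?_⟩
    have h1 : 0 ≤ M % (n : ℤ) := Int.emod_nonneg _ (by omega)
    rw [Int.toNat_of_nonneg h1]
    exact Int.dvd_self_sub_emod
  have hVM : ∀ i : ℤ, V (i + M) = V (i + M') := fun i => per hV (by simpa using hM')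
  have hkap : ∀ a b, kap V u M a b = kap V u (M' : ℤ) a b := by
    intro a b
    unfold kap
    rw [hVM a, hVM b]
  have hM'' : dl v V c 0 (M' : ℤ) ≤ s' := by
    have h1 := hVM 0
    rw [zero_add, zero_add] at h1
    have h2 : c M = c (M' : ℤ) := per hcper hM'
    unfold dl at hM ⊢
    rw [← h1, ← h2]
    exact hM
  have hD : 0 < dl v V c 0 u := h0.trans_lt hs
  have hb : ∀ z, dl v V c 0 z ≤ s' → dl v V c z u = dl v V c 0 u := fun z hz =>
    hU.iso (hz.trans_lt hs)
  have key : ∀ x y y' : ℤ, dl v V c 0 x ≤ s' → dl v V c 0 y ≤ s' → dl v V c 0 y' ≤ s' →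
      s ≤ dl v V c x y → s ≤ dl v V c x y' →
      v (kap V u (M' : ℤ) x y - kap V u (M' : ℤ) x y') < 1 := by
    intro x y y' hx hy hy' hxy hxy'
    have kxy : dl v V c x y ≤ s' := (hU.ult x y 0).trans (max_le (by rw [hU.sy]; exact hx) hy)
    have kxy' : dl v V c x y' ≤ s' := (hU.ult x y' 0).trans (max_le (by rw [hU.sy]; exact hx) hy')
    refine main_step hv hU hV M' hs0 hss hs (fun t hc => ?_) hM'' hx hy hy' hxy hxy'
    have hnd : ∀ a b : ℤ, 0 < dl v V c a b → ¬ (n : ℤ) ∣ (a + t) - (b + t) := by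
      intro a b hab hd
      rw [add_sub_add_right_eq_sub, ← hU.ze] at hd
      rw [hd] at hab
      exact lt_irrefl _ hab
    refine hFull _ _ _ _ ⟨hnd _ _ ?_, hnd _ _ ?_, hnd _ _ ?_, hnd _ _ ?_, hnd _ _ ?_, ?_⟩
      (hW _ _ _ _ ?_ ?_ ?_ ?_ ?_)
    · rw [hb x hx]; exact hD
    · exact hs0.trans_le hxy
    · exact hs0.trans_le hxy'
    · rw [hU.sy, hb y hy]; exact hD
    · rw [hU.sy, hb y' hy']; exact hD
    · rw [add_sub_add_right_eq_sub]; exact hc
    · rw [hU.sh]; exact hxy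
    · rw [hU.sh]; exact kxy
    · rw [hU.sh]; exact hxy'
    · rw [hU.sh]; exact kxy'
    · rw [hU.sh, hb x hx]; exact hs
  refine ⟨?_, ?_⟩
  · rw [hkap]
    exact kap_val hU hs h0 hM'' hx hy (hs0.trans_le hxy)
  · rw [hkap, hkap]
    have tri : ∀ a b w : L, v (a - b) < 1 → v (b - w) < 1 → v (a - w) < 1 := by
      intro a b w h1 h2
      have h3 : a - w = (a - b) + (b - w) := by ring
      rw [h3]
      exact (hv _ _).trans_lt (max_lt h1 h2)
    rcases le_or_gt s (dl v V c x x') with h | h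
    · refine tri _ (kap V u (M' : ℤ) x x') _ (key x y x' hx hy hx' hxy h) ?_
      rw [kap_symm V u (M' : ℤ) x x']
      exact key x' x y' hx' hx hy' (by rw [hU.sy]; exact h) hxy'
    · have h1 : dl v V c x' y = dl v V c x y := hU.iso (h.trans_le hxy)
      refine tri _ (kap V u (M' : ℤ) x' y) _ ?_ (key x' y y' hx' hy hy' (by rw [h1]; exact hxy) hxy')
      rw [kap_symm V u (M' : ℤ) x y, kap_symm V u (M' : ℤ) x' y]
      exact key y x x' hy hx hx' (by rw [hU.sy]; exact hxy) (by rw [hU.sy, h1]; exact hxy)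

end Pool.Agent.N622.UR
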